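import Pool.Agent.H71.FX.Targets

/-!
# fxm_modules, rows DW, D5, RC
-/

set_option autoImplicit false

namespace Pool.Agent.H20.FX

open Pool.Agent.H8.PL Pool.Agent.H71.PF Pool.Agent.H71.FX

/-- the Boolean word of a list of numbers -/
def wrd : List ℕ → List Bool
  | [] => []
  | i :: w => false :: (List.replicate i true ++ wrd w)

theorem wv_rep {α : Type} (f g : α → α) (v : List Bool) (z : α) (i : ℕ) :
    wv f g (List.replicate i true ++ v) z = g^[i] (wv f g v z) := by
  induction i with
  | zero => rfl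
  | succ i ih =>
    rw [List.replicate_succ, Function.iterate_succ_apply', ← ih]
    rfl

theorem wv_wrd {α : Type} (f g : α → α) (z : α) (w : List ℕ) :
    wv f g (wrd w) z = w.foldr (fun i z => f (g^[i] z)) z := by
  induction w with
  | nil => rfl
  | cons i w ih =>
    have h1 : wv f g (wrd (i :: w)) z = f (wv f g (List.replicate i true ++ wrd w) z) := rfl
    rw [h1, wv_rep, ih]
    rfl

/-- Row DW. -/
theorem pf_DW : T_DW := by
  intro w w' a b
  refine (DB.eq (wrd w) (wrd w') a b).congr fun α f g x y => ?_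
  rw [wv_wrd, wv_wrd]

/-- Row D5. -/
theorem pf_D5 (dw : T_DW) : T_D5 := by
  intro Q _ e U Hh Vv b
  have hT : ∀ q, DB (fun _ f g x y => (dcd e f g).T q (bif b then y else x)) :=
    fun q => dw [14 + e q] [] b b
  have hTr : ∀ q, DB (fun _ f g x y => (dcd e f g).T q ((dcd e f g).r (bif b then y else x))) :=
    fun q => dw [14 + e q, 1] [1] b b
  have hTu : ∀ q, DB (fun _ f g x y => (dcd e f g).T q ((dcd e f g).u (bif b then y else x))) :=
    fun q => dw [14 + e q, 3] [3] b b
  have hlf : DB (fun _ f g x y => (dcd e f g).lf (bif b then y else x)) := dw [6] [] b b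
  have hrt : DB (fun _ f g x y => (dcd e f g).rt (bif b then y else x)) := dw [7] [] b b
  have hbt : DB (fun _ f g x y => (dcd e f g).bt (bif b then y else x)) := dw [8] [] b b
  have htp : DB (fun _ f g x y => (dcd e f g).tp (bif b then y else x)) := dw [9] [] b b
  have h1 := DB.ex hT
  have h2 := DB.all fun q => (hT q).imp (DB.all fun b1 : Bool => DB.all fun b2 : Bool =>
    DB.all fun b3 : Bool => DB.all fun b4 : Bool => ((DB.const (b1 = true)).iff hlf).imp
      (((DB.const (b2 = true)).iff hrt).imp (((DB.const (b3 = true)).iff hbt).imp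
        (((DB.const (b4 = true)).iff htp).imp (DB.const (U b1 b2 b3 b4 q))))))
  have h3 := hrt.not.imp (DB.all fun q => DB.all fun q' => (hT q).imp ((hTr q').imp
    (DB.const (Hh q q'))))
  have h4 := htp.not.imp (DB.all fun q => DB.all fun q' => (hT q).imp ((hTu q').imp
    (DB.const (Vv q q'))))
  exact (h1.and (h2.and (h3.and h4))).congr fun α f g x y => Iff.rfl

/-- Row RC. -/
theorem pf_RC (cr : T_CR) (ce : T_CE) (ca : T_CA) (ti : T_TI) : T_RC := by
  intro α Q m U Hh Vv hne hfin hok hu
  have hRu : m.Ru := fun x => ⟨(hok x).1, (hok x).2.1, (hok x).2.2.1⟩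
  have h4 : ∀ x, m.G4 x := fun x => (hok x).2.2.2.1
  obtain ⟨x⟩ := hne
  obtain ⟨z, i, j, hz, -, -, -⟩ := cr α Q m hfin hRu h4 x
  obtain ⟨W, H, hW, hH, hC⟩ := ce α Q m hfin hRu h4 z hz
  exact ⟨W, H, hW, hH, ca α Q m hfin hRu h4 hu z W H hz hW hH hC, ti α Q m U Hh Vv z W H hok hC⟩

end Pool.Agent.H20.FX
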